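import Pool.Agent.W172.MK.Stm

/-!
MP_65c995_pr, project MK, part COLS: sums over the middle colour.
-/

set_option autoImplicit false

namespace Pool.Agent.W878.MK

open Pool.Agent.W172.MK

private lemma addSelf {n : ℕ} (a : V n) : a + a = 0 := by
  funext i
  exact CharTwo.add_self_eq_zero (a i)

private lemma hat_lin {n : ℕ} (F G H : V n → ℝ) (c d : ℝ) (h : ∀ b, F b = c * G b + d * H b)
    (a : V n) : hat F a = c * hat G a + d * hat H a := by
  unfold hat
  rw [← mul_div_assoc, ← mul_div_assoc, ← add_div, Finset.mul_sum, Finset.mul_sum,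
    ← Finset.sum_add_distrib]
  congr 1
  refine Finset.sum_congr rfl fun b _ => ?_
  rw [h b]
  ring

private lemma hat_cE {n M : ℕ} (eps : Fin (M + 1) → V n → ℝ) (y z : ℕ → Fin (M + 1)) (t : ℕ)
    (a : V n) :
    cE eps y z t a = (hat (Nh eps y z t true) a + hat (Nh eps y z t false) a) / 2 := by
  unfold cE
  rw [hat_lin _ (Nh eps y z t true) (Nh eps y z t false) (-1 / 2) (-1 / 2)]
  · ring
  · intro b
    simp only [Nh, cs]
    norm_num
    ring

private lemma hat_cO {n M : ℕ} (eps : Fin (M + 1) → V n → ℝ) (y z : ℕ → Fin (M + 1)) (t : ℕ)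
    (a : V n) :
    cO eps y z t a = (hat (Nh eps y z t true) a - hat (Nh eps y z t false) a) / 2 := by
  unfold cO
  rw [hat_lin _ (Nh eps y z t true) (Nh eps y z t false) (-1 / 2) (1 / 2)]
  · ring
  · intro b
    simp only [Nh, cs]
    norm_num
    ring

private lemma term_eq {n M : ℕ} (eps : Fin (M + 1) → V n → ℝ) (x z : St n M) (t : ℕ) :
    term eps x z t = ∑ χ : Bool, (if x.1.1 = z.1.1 then 1 else cs χ) / 2 *
      hat (Nh eps x.2 z.2 t χ) (x.1.2 + z.1.2) := by
  unfold term
  rw [Fintype.sum_bool]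
  split_ifs with h
  · rw [hat_cE]; ring
  · rw [hat_cO]; simp only [cs]; norm_num; ring

private lemma conv {n : ℕ} (hft : P_FT) (A B : V n → ℝ) (a a' : V n) :
    ∑ c, hat A (a + c) * hat B (c + a') = (∑ b, ee (a + a') b * (A b * B b)) / qq n := by
  have h := (hft n A B).2.2 (a + a')
  have h2 : hat (fun b => A b * B b) (a + a') = (∑ b, ee (a + a') b * (A b * B b)) / qq n := by
    unfold hat
    congr 1
    exact Finset.sum_congr rfl fun b _ => by ring
  rw [← h2, h, (Equiv.sum_comp (Equiv.addLeft a) (fun c => hat A c * hat B (a + a' + c))).symm]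
  refine Finset.sum_congr rfl fun c _ => ?_
  simp only [Equiv.coe_addLeft]
  have : a + a' + (a + c) = c + a' := by
    calc a + a' + (a + c) = (a + a) + (c + a') := by abel
      _ = c + a' := by rw [addSelf, zero_add]
  rw [this]

theorem cols : P_EE → P_FT → P_COLS := by
  intro hee hft n M eps y z y' g g' t s
  refine ⟨?_, ?_, ?_⟩
  · simp only [term_eq]
    rw [Fintype.sum_prod_type]
    have key : ∀ σ : Bool, ∑ c : V n,
        (∑ χ : Bool, (if g.1 = σ then 1 else cs χ) / 2 * hat (Nh eps y z t χ) (g.2 + c)) *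
        (∑ χ : Bool, (if σ = g'.1 then 1 else cs χ) / 2 * hat (Nh eps z y' s χ) (c + g'.2)) =
        ∑ χ : Bool, ∑ χ' : Bool, (if g.1 = σ then 1 else cs χ) / 2 *
          ((if σ = g'.1 then 1 else cs χ') / 2) *
          ∑ c : V n, hat (Nh eps y z t χ) (g.2 + c) * hat (Nh eps z y' s χ') (c + g'.2) := by
      intro σ
      simp only [Fintype.sum_bool, Finset.mul_sum]
      simp only [← Finset.sum_add_distrib]
      refine Finset.sum_congr rfl fun c _ => ?_
      ring
    simp only [key]
    have hT : ∀ χ : Bool, ∑ b : V n, (if g.1 = g'.1 then 1 else cs χ) * ee (g.2 + g'.2) b *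
      (Nh eps y z t χ b * Nh eps z y' s χ b) = (if g.1 = g'.1 then 1 else cs χ) *
        (qq n * ∑ c : V n, hat (Nh eps y z t χ) (g.2 + c) * hat (Nh eps z y' s χ) (c + g'.2)) := by
      intro χ
      rw [conv hft]
      have hq : qq n ≠ 0 := by unfold qq; positivity
      rw [mul_div_cancel₀ _ hq, Finset.mul_sum]
      exact Finset.sum_congr rfl fun b _ => by ring
    simp only [hT]
    have hq : qq n ≠ 0 := by unfold qq; positivity
    generalize qq n = q at hq ⊢
    simp only [Fintype.sum_bool, cs]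
    rcases g with ⟨g1, g2⟩
    rcases g' with ⟨g1', g2'⟩
    cases g1 <;> cases g1' <;> simp <;> field_simp <;> ring
  · simp only [term_eq]
    rw [Fintype.sum_prod_type]
    have h0 : ∀ F : V n → ℝ, ∑ c : V n, hat F (g.2 + c) = F 0 := by
      intro F
      rw [(hft n F F).1 0]
      refine (Equiv.sum_comp (Equiv.addLeft g.2) (fun c => hat F c)).trans ?_
      refine Finset.sum_congr rfl fun c _ => ?_
      rw [(hee n).2.1 _ 0, (hee n).2.2.2.1, mul_one]
    have h1 : ∀ σ : Bool, ∑ c : V n, ∑ χ : Bool, (if g.1 = σ then 1 else cs χ) / 2 *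
        hat (Nh eps y z t χ) (g.2 + c) =
        ∑ χ : Bool, (if g.1 = σ then 1 else cs χ) / 2 * Nh eps y z t χ 0 := by
      intro σ
      rw [Finset.sum_comm]
      refine Finset.sum_congr rfl fun χ _ => ?_
      rw [← Finset.mul_sum, h0]
    simp only [h1]
    simp only [Fintype.sum_bool, cs]
    rcases g with ⟨g1, g2⟩
    cases g1 <;> simp <;> ring
  · simp only [term_eq]
    rw [Fintype.sum_prod_type]
    have h0 : ∀ F : V n → ℝ, ∑ c : V n, hat F (c + g'.2) = F 0 := by
      intro F
      rw [(hft n F F).1 0]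
      refine (Equiv.sum_comp (Equiv.addRight g'.2) (fun c => hat F c)).trans ?_
      refine Finset.sum_congr rfl fun c _ => ?_
      rw [(hee n).2.1 _ 0, (hee n).2.2.2.1, mul_one]
    have h1 : ∀ σ : Bool, ∑ c : V n, ∑ χ : Bool, (if σ = g'.1 then 1 else cs χ) / 2 *
        hat (Nh eps z y' s χ) (c + g'.2) =
        ∑ χ : Bool, (if σ = g'.1 then 1 else cs χ) / 2 * Nh eps z y' s χ 0 := by
      intro σ
      rw [Finset.sum_comm]
      refine Finset.sum_congr rfl fun χ _ => ?_
      rw [← Finset.mul_sum, h0]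
    simp only [h1]
    simp only [Fintype.sum_bool, cs]
    rcases g' with ⟨g1', g2'⟩
    cases g1' <;> simp <;> ring

end Pool.Agent.W878.MK
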